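import Pool.Agent.Helper6.NX.GoalsB

/-!
Averages over all positions (packet NX-AVG).
-/

namespace Pool.Agent.Helper27.NX

open Pool.Agent.Helper6.NX Equiv

theorem card_ini {n k : ℕ} (h : k ≤ n) : (ini n k).card = k := by
  have h1 : (ini n k).map Fin.valEmbedding = Finset.range k := by
    ext a
    simp only [ini, Finset.mem_map, Finset.mem_filter, Finset.mem_univ, true_and,
      Finset.mem_range, Fin.valEmbedding_apply]
    constructor
    · rintro ⟨i, hi, rfl⟩
      exact hi
    · intro ha
      exact ⟨⟨a, lt_of_lt_of_le ha h⟩, ha, rfl⟩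
  rw [← Finset.card_map Fin.valEmbedding, h1, Finset.card_range]

theorem exists_perm {n k : ℕ} (D : Finset (Fin n)) (hD : D.card = k) :
    ∃ σ : Perm (Fin n), im σ (ini n k) = D := by
  have hk : k ≤ n := by
    rw [← hD]
    exact (Finset.card_le_univ D).trans (by rw [Fintype.card_fin])
  have hc : (ini n k).card = D.card := by rw [card_ini hk, hD]
  have e : {x // x ∈ ini n k} ≃ {x // x ∈ D} := Finset.equivOfCardEq hc
  refine ⟨e.extendSubtype, ?_⟩
  unfold im
  refine Finset.eq_of_subset_of_card_le ?_ ?_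
  · intro y hy
    rw [Finset.mem_image] at hy
    obtain ⟨x, hx, rfl⟩ := hy
    exact e.extendSubtype_mem x hx
  · rw [Finset.card_image_of_injective _ (Equiv.injective _), hc]

theorem im_mul {n : ℕ} (π σ : Perm (Fin n)) (D : Finset (Fin n)) :
    im (π * σ) D = im π (im σ D) := by
  unfold im
  rw [Finset.image_image]
  rfl

theorem thmAVG : S_AVG := by
  intro n k
  refine ⟨?_, ?_, fun h => card_ini h⟩
  · intro hk φ p D hp hD
    obtain ⟨σ₀, h0⟩ := exists_perm D hD
    obtain ⟨σ, h1, h2⟩ : ∃ σ : Perm (Fin n), σ ⟨k, hk⟩ = p ∧ im σ (ini n k) = D := by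
      refine ⟨swap (σ₀ ⟨k, hk⟩) p * σ₀, ?_, ?_⟩
      · rw [Perm.mul_apply, swap_apply_left]
      · rw [im_mul, h0]
        unfold im
        have : ∀ y ∈ D, swap (σ₀ ⟨k, hk⟩) p y = y := by
          intro y hy
          refine swap_apply_of_ne_of_ne ?_ ?_
          · intro h3
            rw [← h0] at hy
            unfold im at hy
            rw [Finset.mem_image] at hy
            obtain ⟨x, hx, rfl⟩ := hy
            have h4 : x = ⟨k, hk⟩ := σ₀.injective h3
            subst h4
            simp [ini] at hx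
          · rintro rfl
            exact hp hy
        rw [Finset.image_congr (g := id) (fun y hy => this y hy), Finset.image_id]
    rw [← Equiv.sum_comp (Equiv.mulRight σ)
      (fun π : Perm (Fin n) => φ (π ⟨k, hk⟩) (im π (ini n k)))]
    refine Finset.sum_congr rfl fun π _ => ?_
    rw [Equiv.coe_mulRight, Perm.mul_apply, h1, im_mul, h2]
  · intro ψ D hD
    obtain ⟨σ, h2⟩ := exists_perm D hD
    rw [← Equiv.sum_comp (Equiv.mulRight σ) (fun π : Perm (Fin n) => ψ (im π (ini n k)))]
    refine Finset.sum_congr rfl fun π _ => ?_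
    rw [Equiv.coe_mulRight, im_mul, h2]

end Pool.Agent.Helper27.NX
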